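import Pool.Agent.H74R2.WT.Stmts

set_option autoImplicit false

namespace H74R2.WT

theorem t_J3_mem (a b c d : ℝ) (e : ℂ) (he : 0 < e.im) (S T : ℝ) :
    ((S : ℂ) + (T : ℂ) * e ∈ F0 a b c d e) ↔
      (((0 ≤ S ∧ S < a) ∧ (0 ≤ T ∧ T < d)) ∨ ((a ≤ S ∧ S < a + c) ∧ (0 ≤ T ∧ T < b))) := by
  constructor
  · rintro ⟨s, t, hst, h⟩
    have him := congrArg Complex.im hst
    have hre := congrArg Complex.re hst
    simp at him hre
    have ht : T = t := by
      rcases him with h | h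
      · exact h
      · exact absurd h he.ne'
    subst ht
    have hs : S = s := by linarith
    subst hs
    exact h
  · intro h
    exact ⟨S, T, rfl, h⟩

theorem t_J3 : T_J3 := by
  intro hJ1 a b c d e he ha hd hbc z
  set t : ℝ := z.im / e.im with ht
  set s : ℝ := z.re - t * e.re with hs
  have hz : z = (s : ℂ) + (t : ℂ) * e := by
    apply Complex.ext
    · simp [hs]
    · simp [ht]
      field_simp
  have key : ∀ m : ℤ × ℤ, (z - m.1 * (a + b * e) - m.2 * (-c + d * e) ∈ F0 a b c d e) ↔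
      (((0 ≤ s - m.1 * a + m.2 * c ∧ s - m.1 * a + m.2 * c < a) ∧
        (0 ≤ t - m.1 * b - m.2 * d ∧ t - m.1 * b - m.2 * d < d)) ∨
      ((a ≤ s - m.1 * a + m.2 * c ∧ s - m.1 * a + m.2 * c < a + c) ∧
        (0 ≤ t - m.1 * b - m.2 * d ∧ t - m.1 * b - m.2 * d < b))) := by
    intro m
    have h := t_J3_mem a b c d e he (s - m.1 * a + m.2 * c) (t - m.1 * b - m.2 * d)
    rw [← h]
    have e1 : z - m.1 * (a + b * e) - m.2 * (-c + d * e) =
        ((s - m.1 * a + m.2 * c : ℝ) : ℂ) + ((t - m.1 * b - m.2 * d : ℝ) : ℂ) * e := by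
      rw [hz]
      push_cast
      ring
    rw [e1]
  obtain ⟨m, hm, huniq⟩ := hJ1 a b c d ha hd hbc s t
  refine ⟨m, (key m).mpr hm, ?_⟩
  intro m' hm'
  exact huniq m' ((key m').mp hm')

end H74R2.WT
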